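import Pool.Agent.Q283.FG.Stm3
import Pool.Agent.Q121.FT.CNT

/-!
# Project FG (helper283), job CNT: the number of the elements of the Selmer group

Adapted from `Pool/Agent/Q121/FT/CNT.lean`, with the real places.
-/

set_option autoImplicit false

namespace Pool.Agent.Q154.FG

open NumberField IsDedekindDomain WeierstrassCurve
open Pool.Agent.TH841.SH.D (Coch Pt act Gal IsCoc IsCob LocTriv cob)
open Pool.Agent.TH841.NF.D (Sha IsShaCoc shaCoc)
open Pool.Agent.Q164.EN (T2 mem_T2)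
open Pool.Agent.Q121.FT (exists_place SS card_SS tr dv)
open Pool.Agent.Q283.FT (U2 om crv Rt twi df Cov HasN2 AX Gd LocP Dcl Ks)
open Pool.Agent.Q283.FG

theorem cnt (hKSA : Pool.Agent.Q283.FT.S_KSA) (hKSB : Pool.Agent.Q283.FT.S_KSB) (hKSL : Pool.Agent.Q283.FG.S_KSL)
    (hMWR : Pool.Agent.Q283.FT.S_MWR) : Pool.Agent.Q283.FG.S_CNT := by
  intro F _ _ e he N hN
  obtain ⟨a, h1, h2, h3⟩ := hN
  obtain ⟨v0⟩ := exists_place F
  obtain ⟨hB1, hB2, hB3, hB4⟩ := hKSB F e he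
  have hne : ∀ j, (a j).1 ≠ 0 ∧ (a j).2 ≠ 0 := fun j => ⟨((h1 j).1 v0).1, ((h1 j).1 v0).2.1⟩
  choose f hf using fun j => hB1 (a j).1 (a j).2 (hne j).1 (hne j).2
  have hmem : ∀ j, f j ∈ SS (crv e) := by
    intro j
    obtain ⟨k1, k2⟩ := hKSL F e he (a j).1 (a j).2 (f j) (hne j).1 (hne j).2 (hf j)
    refine ⟨⟨hB2 _ _ _ (hne j).1 (hne j).2 (hf j), fun v => (k1 v).2 ((h1 j).1 v), k2.2 (h1 j).2⟩, ?_⟩
    show f j ∈ T2 (Coch (crv e))
    rw [mem_T2, two_nsmul]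
    funext σ
    exact (hf j).1 σ
  have hbij : Function.Bijective (fun j : Fin N => (⟨f j, hmem j⟩ : SS (crv e))) := by
    constructor
    · intro j j' hjj
      have e1 : f j = f j' := congrArg Subtype.val hjj
      by_contra hne'
      exact h2 j j' hne' ((hB4 _ _ _ _ _ _ (hne j).1 (hne j).2 (hne j').1 (hne j').2 (hf j) (hf j')).1 e1)
    · rintro ⟨g, hg1, hg2⟩
      have hg3 : (2 : ℕ) • g = 0 := hg2
      have hg4 : ∀ σ, g σ + g σ = 0 := by
        intro σ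
        have := congrFun hg3 σ
        rw [two_nsmul] at this
        exact this
      obtain ⟨b, b', hb, hb', hk⟩ := hKSA F e he g hg1.1 hg4
      obtain ⟨k1, k2⟩ := hKSL F e he b b' g hb hb' hk
      obtain ⟨j, hj⟩ := h3 b b' ⟨fun v => (k1 v).1 (hg1.2.1 v), k2.1 hg1.2.2⟩
      refine ⟨j, Subtype.ext ?_⟩
      exact ((hB4 _ _ _ _ _ _ hb hb' (hne j).1 (hne j).2 hk (hf j)).2 hj).symm
  have hcard : Nat.card (SS (crv e)) = N := by
    rw [← Nat.card_congr (Equiv.ofBijective _ hbij), Nat.card_eq_fintype_card, Fintype.card_fin]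
  have hfin : Finite (SS (crv e)) := Finite.of_equiv _ (Equiv.ofBijective _ hbij)
  have hN0 : N ≠ 0 := by
    rw [← hcard]
    exact Nat.card_ne_zero.2 ⟨⟨0⟩, hfin⟩
  have hc := card_SS (crv e) (tr he) (dv he)
  have hM : (nsmulAddMonoidHom 2 : Pt (crv e) F →+ Pt (crv e) F).range.index =
      4 * 2 ^ Module.finrank ℤ (Pt (crv e) F) := (hMWR F e he).2
  rw [hM, hcard] at hc
  refine ⟨Nat.finite_of_card_ne_zero ?_, hc⟩
  intro h0
  rw [h0, mul_zero] at hc
  exact hN0 hc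

end Pool.Agent.Q154.FG
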