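import Pool.Agent.Q283.FG.Stm3
import Pool.Agent.Q192.FT.LCP

/-!
# Project FG (helper283), job LCP: properties of the local conditions, with the signs

Adapted from `Pool/Agent/Q192/FT/LCP.lean`.
-/

set_option autoImplicit false

namespace Pool.Agent.Q154.FG

open NumberField IsDedekindDomain WeierstrassCurve
open Pool.Agent.Q283.FT (U2 om crv Rt twi df Cov HasN2 AX Gd LocP Dcl)
open Pool.Agent.Q283.FG Pool.Agent.Q7.LK
open Pool.Agent.TH841.SH.D (Pt)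
open Pool.Agent.Q192.FT (Cov.mul_sq Cov.twi_sq)

/-- properties of the local conditions -/
theorem lcp (hKUA : Pool.Agent.Q283.FG.S_KUA) (hKUB : Pool.Agent.Q283.FG.S_KUB) (hAXP : Pool.Agent.Q283.FG.S_AXP)
    (hBAS : Pool.Agent.Q7.LK.S_BAS) (hCPL : Pool.Agent.Q7.LK.S_CPL) : Pool.Agent.Q283.FG.S_LCP := by
  intro F _ _ e he v
  have : Fact (Nat.Prime 2) := ⟨Nat.prime_two⟩
  obtain ⟨-, hmul, hpow, -, -, -, -⟩ := hBAS 2 F v
  have hsq : ∀ {m : F}, Lpw 2 v m → m ≠ 0 ∧ ∃ s : v.adicCompletion F, s ≠ 0 ∧ algebraMap F (v.adicCompletion F) m = s ^ 2 := by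
    intro m hm
    obtain ⟨hm0, s, hs⟩ := (hCPL 2 F v m).1 hm
    refine ⟨hm0, s, ?_, hs⟩
    rintro rfl
    have h1 : algebraMap F (v.adicCompletion F) m = 0 ^ 2 := hs
    rw [zero_pow two_ne_zero] at h1
    exact (map_ne_zero _).2 hm0 h1
  have h2 : ∀ a b m m' : F, Lpw 2 v m → Lpw 2 v m' → AX v e a b → AX v e (a * m) (b * m') := by
    intro a b m m' hm hm' h
    obtain ⟨hm0, s, hs0, hs⟩ := hsq hm
    obtain ⟨hm0', s', hs0', hs'⟩ := hsq hm'
    exact ⟨mul_ne_zero h.1 hm0, mul_ne_zero h.2.1 hm0', Cov.mul_sq h.2.2 hs0 hs0' hs hs'⟩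
  refine ⟨?_, h2, ?_, ?_⟩
  · intro a b a' b' h h'
    obtain ⟨P, hP⟩ := (hAXP F e he (v.adicCompletion F) a b h.1 h.2.1).1 h.2.2
    obtain ⟨Q, hQ⟩ := (hAXP F e he (v.adicCompletion F) a' b' h'.1 h'.2.1).1 h'.2.2
    refine ⟨mul_ne_zero h.1 h'.1, mul_ne_zero h.2.1 h'.2.1,
      (hAXP F e he (v.adicCompletion F) _ _ (mul_ne_zero h.1 h'.1) (mul_ne_zero h.2.1 h'.2.1)).2 ⟨P + Q, ?_⟩⟩
    have h3 := hKUB F e he (v.adicCompletion F) P Q _ _ _ _ hP hQ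
    rw [map_mul, map_mul]
    exact h3
  · intro a b n hn h
    obtain ⟨hm0, s, hs0, hs⟩ := hsq hn
    exact ⟨h.1, h.2.1, Cov.twi_sq h.2.2 hs0 hs⟩
  · -- the classes of the points of order dividing `2`
    have key : ∀ (a b c d : F), c ≠ 0 → d ≠ 0 → AX v e c d → Lpw 2 v (a * c) → Lpw 2 v (b * d) → AX v e a b := by
      intro a b c d hc hd h h3 h4
      have h5 : Lpw 2 v (a * c * (c⁻¹) ^ 2) := hmul _ _ h3 (hpow _ (inv_ne_zero hc))
      have h6 : Lpw 2 v (b * d * (d⁻¹) ^ 2) := hmul _ _ h4 (hpow _ (inv_ne_zero hd))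
      have h7 := h2 _ _ _ _ h5 h6 h
      have e1 : c * (a * c * (c⁻¹) ^ 2) = a := by
        field_simp
      have e2 : d * (b * d * (d⁻¹) ^ 2) = b := by
        field_simp
      rw [e1, e2] at h7
      exact h7
    obtain ⟨-, -, -, hz, ht⟩ := hKUA F e he (v.adicCompletion F)
    have hT : ∀ (c d : F),
        (∃ P : Pt (crv e) (v.adicCompletion F), Cx e (v.adicCompletion F) P (algebraMap F _ c) (algebraMap F _ d)) →
        c ≠ 0 ∧ d ≠ 0 ∧ AX v e c d := by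
      intro c d h
      obtain ⟨P, hP⟩ := h
      have hc : c ≠ 0 := by
        rintro rfl
        exact hP.1 (map_zero _)
      have hd : d ≠ 0 := by
        rintro rfl
        exact hP.2.1 (map_zero _)
      exact ⟨hc, hd, hc, hd, (hAXP F e he (v.adicCompletion F) c d hc hd).2 ⟨P, hP⟩⟩
    rintro a b (⟨h3, h4⟩ | ⟨l, h3, h4⟩)
    · obtain ⟨k1, k2, k3⟩ := hT 1 1 ⟨0, by rw [map_one]; exact hz⟩
      exact key a b 1 1 one_ne_zero one_ne_zero k3 (by rwa [mul_one]) (by rwa [mul_one])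
    · obtain ⟨h, h5⟩ := ht l
      obtain ⟨k1, k2, k3⟩ := hT (tc e l).1 (tc e l).2 ⟨_, h5⟩
      exact key a b _ _ k1 k2 k3 h3 h4

end Pool.Agent.Q154.FG
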