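import Pool.Agent.Q255.FG.Stm

/-!
# FG-ONE: integrals over the circle
-/

set_option autoImplicit false

open MeasureTheory Finset

namespace Pool.Agent.Q154.FG

open Q289.PAM Pool.Agent.Q255.RM Pool.Agent.Q255.FG

theorem lg : S_LG := by
  intro z hz
  have h1 : ‖-z‖ < 1 := by rw [norm_neg]; linarith
  have h2 := Complex.norm_log_one_add_sub_self_le h1
  rw [norm_neg, sub_neg_eq_add, ← sub_eq_add_neg] at h2
  have h3 : ‖z‖ ^ 2 * (1 - ‖z‖)⁻¹ / 2 ≤ 2 * ‖z‖ ^ 2 := by
    have h4 : (1 - ‖z‖)⁻¹ ≤ 4 := by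
      rw [inv_le_comm₀ (by linarith) (by norm_num)]
      linarith
    nlinarith [sq_nonneg ‖z‖]
  have h4 : |(Complex.log (1 - z) + z).re| ≤ 2 * ‖z‖ ^ 2 :=
    (Complex.abs_re_le_norm _).trans (h2.trans h3)
  rw [Complex.add_re, Complex.log_re, abs_le] at h4
  have h5 : 1 - z ≠ 0 := by
    intro h
    have : z = 1 := (sub_eq_zero.mp h).symm
    rw [this] at hz
    norm_num at hz
  have h6 : 0 < ‖1 - z‖ := norm_pos_iff.mpr h5
  have h7 : ‖1 - z‖⁻¹ = Real.exp (-Real.log ‖1 - z‖) := by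
    rw [Real.exp_neg, Real.exp_log h6]
  rw [h7, Real.exp_le_exp, Real.exp_le_exp]
  constructor <;> linarith [h4.1, h4.2]

theorem u_cont : Continuous fun x : UnitAddCircle => (x.toCircle : ℂ) :=
  continuous_subtype_val.comp AddCircle.continuous_toCircle

theorem int_pow (n : ℕ) (hn : n ≠ 0) : ∫ x : UnitAddCircle, (x.toCircle : ℂ) ^ n = 0 := by
  have hnR : (n : ℝ) ≠ 0 := by exact_mod_cast hn
  apply integral_eq_zero_of_add_right_eq_neg (g := ((1 / (2 * (n : ℝ)) : ℝ) : UnitAddCircle))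
  intro x
  rw [AddCircle.toCircle_add, Circle.coe_mul, mul_pow]
  have h1 : ((AddCircle.toCircle ((1 / (2 * (n : ℝ)) : ℝ) : UnitAddCircle) : Circle) : ℂ) ^ n =
      -1 := by
    rw [← Circle.coe_pow, ← AddCircle.toCircle_nsmul, ← AddCircle.coe_nsmul]
    have h2 : (n • (1 / (2 * (n : ℝ))) : ℝ) = 1 / 2 := by
      rw [nsmul_eq_mul]
      field_simp
    rw [h2, AddCircle.toCircle_apply_mk]
    have h6 : (2 * Real.pi / 1 * (1 / 2) : ℝ) = Real.pi := by ring
    rw [h6, Circle.coe_exp, Complex.exp_pi_mul_I]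
  rw [h1]
  ring

theorem int_ok {E : Type} [NormedAddCommGroup E] [NormedSpace ℝ E] {g : UnitAddCircle → E}
    (hg : Continuous g) : Integrable g :=
  hg.integrable_of_hasCompactSupport (HasCompactSupport.of_compactSpace g)

theorem int_re (c : ℂ) (n : ℕ) (hn : n ≠ 0) :
    ∫ x : UnitAddCircle, (c * (x.toCircle : ℂ) ^ n).re = 0 := by
  have hc : Continuous fun x : UnitAddCircle => c * (x.toCircle : ℂ) ^ n :=
    continuous_const.mul (u_cont.pow n)
  have h1 := Complex.reCLM.integral_comp_comm (int_ok hc)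
  simp only [Complex.reCLM_apply] at h1
  rw [h1, integral_const_mul, int_pow n hn, mul_zero, Complex.zero_re]

/-- the real part -/
noncomputable def vv (w : ℂ) (x : UnitAddCircle) : ℝ := (w * (x.toCircle : ℂ)).re

theorem vv_cont (w : ℂ) : Continuous (vv w) :=
  Complex.continuous_re.comp (continuous_const.mul u_cont)

theorem norm_wu (w : ℂ) (x : UnitAddCircle) : ‖w * (x.toCircle : ℂ)‖ = ‖w‖ := by
  rw [norm_mul, Circle.norm_coe, mul_one]

theorem vv_abs (w : ℂ) (x : UnitAddCircle) : |vv w x| ≤ ‖w‖ := by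
  rw [← norm_wu w x]
  exact Complex.abs_re_le_norm _

theorem int_v (w : ℂ) : ∫ x, vv w x = 0 := by
  have := int_re w 1 one_ne_zero
  simp only [pow_one] at this
  exact this

theorem int_v2 (w : ℂ) : ∫ x, vv w x ^ 2 = ‖w‖ ^ 2 / 2 := by
  have h1 : ∀ x, vv w x ^ 2 = (w ^ 2 * (x.toCircle : ℂ) ^ 2).re * (1 / 2) + ‖w‖ ^ 2 / 2 := by
    intro x
    have e1 : w ^ 2 * (x.toCircle : ℂ) ^ 2 = (w * (x.toCircle : ℂ)) * (w * (x.toCircle : ℂ)) := by
      ring
    have e2 : ‖w‖ ^ 2 = (w * (x.toCircle : ℂ)).re * (w * (x.toCircle : ℂ)).re +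
        (w * (x.toCircle : ℂ)).im * (w * (x.toCircle : ℂ)).im := by
      rw [← norm_wu w x, Complex.sq_norm, Complex.normSq_apply]
    rw [e1, e2, Complex.mul_re (w * (x.toCircle : ℂ)) (w * (x.toCircle : ℂ))]
    unfold vv
    ring
  have h2 : Continuous fun x : UnitAddCircle => (w ^ 2 * (x.toCircle : ℂ) ^ 2).re * (1 / 2) :=
    (Complex.continuous_re.comp (continuous_const.mul (u_cont.pow 2))).mul continuous_const
  simp_rw [h1]
  rw [integral_add (int_ok h2) (integrable_const _), integral_mul_const,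
    int_re _ 2 two_ne_zero, integral_const]
  simp

theorem exp_le (v : ℝ) (hv : |v| ≤ 1) : Real.exp v ≤ 1 + v + v ^ 2 / 2 + |v| ^ 3 := by
  have h1 := Real.exp_bound hv (n := 3) (by norm_num)
  simp only [Finset.sum_range_succ, Finset.range_zero, Finset.sum_empty, pow_zero,
    Nat.factorial, pow_one] at h1
  rw [abs_le] at h1
  have h2 := h1.2
  norm_num at h2
  have h3 : 0 ≤ |v| ^ 3 := by positivity
  linarith

theorem cosh_ge (v : ℝ) : 2 + v ^ 2 ≤ Real.exp v + Real.exp (-v) := by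
  have h1 : Real.cosh v = 1 + 2 * Real.sinh (v / 2) ^ 2 := by
    have h2 := Real.cosh_two_mul (v / 2)
    have h3 := Real.cosh_sq (v / 2)
    have h4 : 2 * (v / 2) = v := by ring
    rw [h4] at h2
    rw [h2, h3]
    ring
  have h2 : (v / 2) ^ 2 ≤ Real.sinh (v / 2) ^ 2 := by
    rcases le_total 0 (v / 2) with h | h
    · exact pow_le_pow_left₀ h (Real.self_le_sinh_iff.mpr h) 2
    · have h3 := Real.sinh_le_self_iff.mpr h
      nlinarith
  have h3 := Real.cosh_eq v
  linarith

theorem one : S_ONE := by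
  have hE : ∀ w : ℂ, Continuous fun x : UnitAddCircle =>
      Real.exp (w * (x.toCircle : ℂ)).re := fun w => Real.continuous_exp.comp (vv_cont w)
  have a1 : ∀ w : ℂ, ‖w‖ ≤ 1 → ∫ x : UnitAddCircle, Real.exp (w * (x.toCircle : ℂ)).re ≤
      Real.exp (‖w‖ ^ 2 / 4 + ‖w‖ ^ 3) := by
    intro w hw
    have h1 : ∀ x : UnitAddCircle, Real.exp (w * (x.toCircle : ℂ)).re ≤
        1 + vv w x + vv w x ^ 2 * (1 / 2) + ‖w‖ ^ 3 := by
      intro x
      have h2 := exp_le (vv w x) ((vv_abs w x).trans hw)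
      have h3 : |vv w x| ^ 3 ≤ ‖w‖ ^ 3 := pow_le_pow_left₀ (abs_nonneg _) (vv_abs w x) 3
      show Real.exp (vv w x) ≤ _
      linarith
    have c1 : Continuous fun x => 1 + vv w x := continuous_const.add (vv_cont w)
    have c2 : Continuous fun x => vv w x ^ 2 * (1 / 2) := ((vv_cont w).pow 2).mul continuous_const
    have h2 : ∫ x : UnitAddCircle, (1 + vv w x + vv w x ^ 2 * (1 / 2) + ‖w‖ ^ 3) =
        1 + ‖w‖ ^ 2 / 4 + ‖w‖ ^ 3 := by
      have i12 : Integrable fun x => 1 + vv w x + vv w x ^ 2 * (1 / 2) := int_ok (c1.add c2)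
      rw [integral_add i12 (integrable_const _), integral_add (int_ok c1)
        (int_ok c2), integral_add (integrable_const _) (int_ok (vv_cont w)), int_v,
        integral_mul_const, int_v2, integral_const, integral_const]
      simp
      ring
    calc ∫ x : UnitAddCircle, Real.exp (w * (x.toCircle : ℂ)).re ≤
        ∫ x : UnitAddCircle, (1 + vv w x + vv w x ^ 2 * (1 / 2) + ‖w‖ ^ 3) :=
          integral_mono (int_ok (hE w)) (int_ok ((c1.add c2).add continuous_const)) h1
      _ = 1 + ‖w‖ ^ 2 / 4 + ‖w‖ ^ 3 := h2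
      _ ≤ Real.exp (‖w‖ ^ 2 / 4 + ‖w‖ ^ 3) := by
          have := Real.add_one_le_exp (‖w‖ ^ 2 / 4 + ‖w‖ ^ 3)
          linarith
  refine ⟨a1, ?_, ?_, ?_⟩
  · intro w
    have h1 : ∫ x : UnitAddCircle, Real.exp (vv w x) = ∫ x : UnitAddCircle, Real.exp (-vv w x) := by
      have h2 : ∀ x : UnitAddCircle, vv w (x + ((1 / 2 : ℝ) : UnitAddCircle)) = -vv w x := by
        intro x
        unfold vv
        have h3 : ((AddCircle.toCircle ((1 / 2 : ℝ) : UnitAddCircle) : Circle) : ℂ) = -1 := by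
          rw [AddCircle.toCircle_apply_mk]
          have h6 : (2 * Real.pi / 1 * (1 / 2) : ℝ) = Real.pi := by ring
          rw [h6, Circle.coe_exp, Complex.exp_pi_mul_I]
        rw [AddCircle.toCircle_add, Circle.coe_mul, h3, mul_neg_one, mul_neg, Complex.neg_re]
      rw [← integral_add_right_eq_self (fun x => Real.exp (vv w x))
        ((1 / 2 : ℝ) : UnitAddCircle)]
      simp_rw [h2]
    have h3 : 2 + ‖w‖ ^ 2 / 2 ≤
        ∫ x : UnitAddCircle, (Real.exp (vv w x) + Real.exp (-vv w x)) := by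
      have h4 : ∫ x : UnitAddCircle, (2 + vv w x ^ 2) = 2 + ‖w‖ ^ 2 / 2 := by
        have i2 : Integrable fun x => vv w x ^ 2 := int_ok ((vv_cont w).pow 2)
        rw [integral_add (integrable_const _) i2, int_v2, integral_const]
        simp
      rw [← h4]
      exact integral_mono (int_ok (continuous_const.add ((vv_cont w).pow 2)))
        (int_ok ((Real.continuous_exp.comp (vv_cont w)).add
          (Real.continuous_exp.comp (vv_cont w).neg))) fun x => cosh_ge _
    have i3 : Integrable fun x => Real.exp (vv w x) :=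
      int_ok (Real.continuous_exp.comp (vv_cont w))
    have i4 : Integrable fun x => Real.exp (-vv w x) :=
      int_ok (Real.continuous_exp.comp (vv_cont w).neg)
    rw [integral_add i3 i4, ← h1] at h3
    show 1 + ‖w‖ ^ 2 / 4 ≤ ∫ x : UnitAddCircle, Real.exp (vv w x)
    linarith
  · intro w
    have h1 : ∀ x : UnitAddCircle, ‖1 - w * (x.toCircle : ℂ)‖ ^ 2 =
        (1 + ‖w‖ ^ 2) - vv w x * 2 := by
      intro x
      rw [← norm_wu w x, Complex.sq_norm, Complex.sq_norm]
      unfold vv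
      rw [Complex.normSq_apply, Complex.normSq_apply, Complex.sub_re, Complex.sub_im,
        Complex.one_re, Complex.one_im]
      ring
    simp_rw [h1]
    have i5 : Integrable fun x => vv w x * 2 := int_ok ((vv_cont w).mul continuous_const)
    rw [integral_sub (integrable_const _) i5, integral_mul_const, int_v, integral_const]
    simp
  · intro w k hw hk
    have h1 : ∀ x : UnitAddCircle, (‖1 - w * (x.toCircle : ℂ)‖⁻¹) ^ (2 * k) ≤
        Real.exp (4 * k * ‖w‖ ^ 2) * Real.exp (((2 * k : ℕ) : ℂ) * w * (x.toCircle : ℂ)).re := by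
      intro x
      have h2 := (lg (w * (x.toCircle : ℂ)) (by rw [norm_wu]; exact hw)).2
      have h3 := pow_le_pow_left₀ (by positivity) h2 (2 * k)
      refine h3.trans (le_of_eq ?_)
      rw [← Real.exp_nat_mul, ← Real.exp_add, norm_wu]
      congr 1
      rw [mul_assoc (((2 * k : ℕ) : ℂ)), ← Complex.ofReal_natCast, Complex.re_ofReal_mul]
      push_cast
      ring
    have hcont : Continuous fun x : UnitAddCircle => (‖1 - w * (x.toCircle : ℂ)‖⁻¹) ^ (2 * k) := by
      refine (Continuous.inv₀ ?_ ?_).pow _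
      · exact (continuous_const.sub (continuous_const.mul u_cont)).norm
      · intro x h
        have h2 : ‖w * (x.toCircle : ℂ)‖ = 1 := by
          have h3 : 1 - w * (x.toCircle : ℂ) = 0 := norm_eq_zero.mp h
          rw [← sub_eq_zero.mp h3, norm_one]
        rw [norm_wu] at h2
        linarith
    have h2 := a1 (((2 * k : ℕ) : ℂ) * w) (by
      rw [norm_mul, Complex.norm_natCast]
      push_cast
      exact hk)
    calc ∫ x : UnitAddCircle, (‖1 - w * (x.toCircle : ℂ)‖⁻¹) ^ (2 * k) ≤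
        ∫ x : UnitAddCircle, Real.exp (4 * k * ‖w‖ ^ 2) *
          Real.exp (((2 * k : ℕ) : ℂ) * w * (x.toCircle : ℂ)).re :=
          integral_mono (int_ok hcont) (int_ok (continuous_const.mul (hE _))) h1
      _ = Real.exp (4 * k * ‖w‖ ^ 2) *
          ∫ x : UnitAddCircle, Real.exp (((2 * k : ℕ) : ℂ) * w * (x.toCircle : ℂ)).re :=
          integral_const_mul _ _
      _ ≤ Real.exp (4 * k * ‖w‖ ^ 2) *
          Real.exp (‖((2 * k : ℕ) : ℂ) * w‖ ^ 2 / 4 + ‖((2 * k : ℕ) : ℂ) * w‖ ^ 3) :=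
          mul_le_mul_of_nonneg_left h2 (Real.exp_pos _).le
      _ = _ := by
          rw [← Real.exp_add, norm_mul, Complex.norm_natCast]
          congr 1
          push_cast
          ring

end Pool.Agent.Q154.FG
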